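import Pool.Agent.Helper67.Mixed.Upper
import Pool.Agent.Helper67.MV.Asym

set_option autoImplicit false

namespace Pool.Agent.Helper67.Mixed

open Finset Filter Topology

/-- the bound for `t(3, n)` on arbitrary types. -/
noncomputable def B3 (n : ℕ) : ℕ := ⌊Real.sqrt (10 * n ^ 3 * (Nat.log 2 n + 1))⌋₊

lemma card_le_B3 (n : ℕ) (hn0 : 1 ≤ n) (W : Type) [Fintype W] [DecidableEq W] (G : SimpleGraph W)
    (h3 : ∀ S : Finset W, S.card = 3 → ¬ Irr G S) (hn : ∀ s : Finset W, ¬ G.IsNClique n s) :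
    Fintype.card W ≤ B3 n := by
  have h := card_sq_le G n hn0 h3 hn
  unfold B3
  apply Nat.le_floor
  apply Real.le_sqrt_of_sq_le
  exact_mod_cast h

/-- `t(4, n) ≤ n (1 + B3 n) + 1`. -/
lemma four_upper (n : ℕ) (hn0 : 1 ≤ n) (G : SimpleGraph (Fin (n * (1 + B3 n) + 1))) :
    (∃ S : Finset (Fin (n * (1 + B3 n) + 1)), S.card = 4 ∧ Irr G S) ∨
      ∃ s : Finset (Fin (n * (1 + B3 n) + 1)), G.IsNClique n s := by
  by_contra hcon
  push Not at hcon
  have h := card_le_four G n (B3 n) (fun S hS hirr => hcon.1 S hS hirr) hcon.2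
    (fun W _ _ G' h3 hn => card_le_B3 n hn0 W G' h3 hn)
  rw [Fintype.card_fin] at h
  omega

/-- real upper bound, `t(4,n) ≤ 10 n^{5/2} (log n)` eventually. -/
lemma upper_real (n : ℕ) (hn : 3 ≤ n) :
    ((n * (1 + B3 n) + 1 : ℕ) : ℝ) ≤ 8 * ((n : ℝ) ^ 2 * Real.sqrt n * Real.log n) := by
  have hn3 : (3 : ℝ) ≤ n := by exact_mod_cast hn
  have hn0 : (0 : ℝ) < n := by linarith
  have hlog : 1 ≤ Real.log n := by
    rw [Real.le_log_iff_exp_le hn0]
    have := Real.exp_one_lt_d9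
    linarith
  have hlog2 : (Nat.log 2 n : ℝ) ≤ 2 * Real.log n := by
    have h1 : (2 : ℝ) ^ (Nat.log 2 n) ≤ n := by exact_mod_cast Nat.pow_log_le_self 2 (by omega)
    have h2 := Real.log_le_log (by positivity) h1
    rw [Real.log_pow] at h2
    have h3 := Real.log_two_gt_d9
    have h4 : (0 : ℝ) ≤ Nat.log 2 n := Nat.cast_nonneg _
    nlinarith
  have hs : Real.sqrt n ^ 2 = n := Real.sq_sqrt hn0.le
  have hs1 : 1 ≤ Real.sqrt n := by
    rw [Real.one_le_sqrt]; linarith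
  have hB : (B3 n : ℝ) ≤ 6 * (n * Real.sqrt n * Real.log n) := by
    unfold B3
    refine (Nat.floor_le (Real.sqrt_nonneg _)).trans ?_
    apply Real.sqrt_le_iff.2
    refine ⟨by positivity, ?_⟩
    calc 10 * (n : ℝ) ^ 3 * (Nat.log 2 n + 1) ≤ 10 * n ^ 3 * (3 * Real.log n) := by
          gcongr; linarith
      _ = 30 * (n ^ 3 * Real.log n) := by ring
      _ ≤ 36 * (n ^ 3 * Real.log n ^ 2) := by
          have h1 : Real.log n ≤ Real.log n ^ 2 := by nlinarith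
          have h2 : (n : ℝ) ^ 3 * Real.log n ≤ n ^ 3 * Real.log n ^ 2 := by gcongr
          have h3 : 0 ≤ (n : ℝ) ^ 3 * Real.log n ^ 2 := by positivity
          linarith
      _ = (6 * (n * Real.sqrt n * Real.log n)) ^ 2 := by
          have : (6 * ((n : ℝ) * Real.sqrt n * Real.log n)) ^ 2 =
            36 * (n ^ 2 * Real.sqrt n ^ 2 * Real.log n ^ 2) := by ring
          rw [this, hs]; ring
  push_cast
  have h1 : 1 ≤ n * Real.sqrt n * Real.log n := by
    have : 1 ≤ n * Real.sqrt n := by nlinarith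
    nlinarith
  have h2 : (n : ℝ) * (1 + B3 n) + 1 ≤ n * (1 + 6 * (n * Real.sqrt n * Real.log n)) + 1 := by
    gcongr
  refine h2.trans ?_
  set w := (n : ℝ) * Real.sqrt n * Real.log n with hw
  have e : (n : ℝ) ^ 2 * Real.sqrt n * Real.log n = n * w := by rw [hw]; ring
  rw [e]
  nlinarith

/-- the mixed Ramsey number -/
noncomputable def mixedRamsey (m n : ℕ) : ℕ :=
  sInf {N : ℕ | ∀ G : SimpleGraph (Fin N),
    (∃ S : Finset (Fin N), S.card = m ∧ ∀ v ∈ S, ∃ w : Fin N, (w = v ∨ G.Adj v w) ∧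
      ∀ u ∈ S, u ≠ v → ¬ (w = u ∨ G.Adj u w)) ∨ ∃ s : Finset (Fin N), G.IsNClique n s}

/-- the classical Ramsey number -/
noncomputable def ramsey (m n : ℕ) : ℕ :=
  sInf {N : ℕ | ∀ G : SimpleGraph (Fin N),
    (∃ s : Finset (Fin N), Gᶜ.IsNClique m s) ∨ ∃ s : Finset (Fin N), G.IsNClique n s}

lemma mixed_le (n : ℕ) (hn : 3 ≤ n) :
    (mixedRamsey 4 n : ℝ) ≤ 8 * ((n : ℝ) ^ 2 * Real.sqrt n * Real.log n) := by
  refine le_trans ?_ (upper_real n hn)
  have h : mixedRamsey 4 n ≤ n * (1 + B3 n) + 1 := Nat.sInf_le (four_upper n (by omega))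
  exact_mod_cast h

lemma ramsey_ge (n N : ℕ) (h0 : ramsey 4 n ≠ 0) (H : SimpleGraph (Fin N)) (h4 : H.CliqueFree 4)
    (hI : ∀ s : Finset (Fin N), s.card = n → ¬ H.IsIndepSet (s : Set (Fin N))) :
    N ≤ ramsey 4 n := by
  by_contra hcon
  push Not at hcon
  have hne : {N : ℕ | ∀ G : SimpleGraph (Fin N),
    (∃ s : Finset (Fin N), Gᶜ.IsNClique 4 s) ∨ ∃ s : Finset (Fin N), G.IsNClique n s}.Nonempty := by
    by_contra h
    rw [Set.not_nonempty_iff_eq_empty] at h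
    apply h0
    unfold ramsey
    rw [h]
    exact Nat.sInf_empty
  have hmem := Nat.sInf_mem hne
  change (ramsey 4 n) ∈ _ at hmem
  rw [Set.mem_setOf_eq] at hmem
  set e : Fin (ramsey 4 n) ↪ Fin N := (Fin.castLEEmb hcon.le) with he
  rcases hmem (Hᶜ.comap e) with ⟨s, hs⟩ | ⟨s, hs⟩
  · refine h4 (s.map e) ⟨?_, by rw [card_map]; exact hs.2⟩
    intro a ha b hb hab
    simp only [coe_map, Set.mem_image, mem_coe] at ha hb
    obtain ⟨x, hx, rfl⟩ := ha
    obtain ⟨y, hy, rfl⟩ := hb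
    have hxy : x ≠ y := fun h => hab (by rw [h])
    have h1 := hs.1 hx hy hxy
    rw [SimpleGraph.compl_adj] at h1
    by_contra h2
    exact h1.2 (by
      change Hᶜ.Adj (e x) (e y)
      rw [SimpleGraph.compl_adj]
      exact ⟨hab, h2⟩)
  · refine hI (s.map e) (by rw [card_map]; exact hs.2) ?_
    intro a ha b hb hab
    simp only [coe_map, Set.mem_image, mem_coe] at ha hb
    obtain ⟨x, hx, rfl⟩ := ha
    obtain ⟨y, hy, rfl⟩ := hb
    have hxy : x ≠ y := fun h => hab (by rw [h])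
    have h1 : Hᶜ.Adj (e x) (e y) := hs.1 hx hy hxy
    rw [SimpleGraph.compl_adj] at h1
    exact h1.2

/-- the ratio is at most `C (log n)^5 / √n`. -/
theorem ratio_bound : ∃ C : ℝ, 0 < C ∧ ∀ᶠ n : ℕ in atTop,
    (mixedRamsey 4 n : ℝ) / (ramsey 4 n : ℝ) ≤ C * ((Real.log n) ^ 5 / Real.sqrt n) := by
  obtain ⟨c, hc, hev⟩ := MV.mattheus_verstraete
  refine ⟨8 / c, by positivity, ?_⟩
  filter_upwards [hev, eventually_ge_atTop 3] with n hn hn3
  obtain ⟨N, hN, H, h4, hI⟩ := hn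
  have hn3' : (3 : ℝ) ≤ n := by exact_mod_cast hn3
  have hn0 : (0 : ℝ) < n := by linarith
  have hlog : 1 ≤ Real.log n := by
    rw [Real.le_log_iff_exp_le hn0]
    have := Real.exp_one_lt_d9
    linarith
  have hsq : (0 : ℝ) < Real.sqrt n := Real.sqrt_pos.2 hn0
  by_cases h0 : ramsey 4 n = 0
  · rw [h0]
    simp only [Nat.cast_zero, div_zero]
    positivity
  · have h1 := ramsey_ge n N h0 H h4 hI
    have h2 : c * ((n : ℝ) ^ 3 / (Real.log n) ^ 4) ≤ ramsey 4 n := hN.trans (by exact_mod_cast h1)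
    have h3 := mixed_le n hn3
    have hrpos : (0 : ℝ) < ramsey 4 n := by
      have : 0 < ramsey 4 n := Nat.pos_of_ne_zero h0
      exact_mod_cast this
    rw [div_le_iff₀ hrpos]
    have hss : Real.sqrt n * Real.sqrt n = n := Real.mul_self_sqrt hn0.le
    calc (mixedRamsey 4 n : ℝ) ≤ 8 * ((n : ℝ) ^ 2 * Real.sqrt n * Real.log n) := h3
      _ = 8 / c * ((Real.log n) ^ 5 / Real.sqrt n) * (c * ((n : ℝ) ^ 3 / (Real.log n) ^ 4)) := by
          have h5 : (n : ℝ) ^ 3 = n ^ 2 * (Real.sqrt n * Real.sqrt n) := by rw [hss]; ring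
          rw [h5]
          field_simp
      _ ≤ _ := by gcongr

end Pool.Agent.Helper67.Mixed
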