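import Mathlib

set_option autoImplicit false

namespace Pool.Agent.Helper67.Mixed

open Finset

section
variable {U : Type} [Fintype U] [DecidableEq U]

/-- orders of `U` for which `u` is the minimum of `W`. -/
def minAt (W : Finset U) (u : U) : Finset (U ≃ Fin (Fintype.card U)) :=
  univ.filter (fun π => ∀ w ∈ W, w ≠ u → π u < π w)

lemma minAt_card_le (W : Finset U) (u v : U) (hu : u ∈ W) (hv : v ∈ W) :
    (minAt W u).card ≤ (minAt W v).card := by
  refine card_le_card_of_injOn (fun π => (Equiv.swap u v).trans π) ?_ ?_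
  · intro π hπ
    simp only [minAt, coe_filter, mem_univ, true_and, Set.mem_setOf_eq] at hπ ⊢
    intro w hw hwv
    simp only [Equiv.trans_apply, Equiv.swap_apply_right]
    by_cases hwu : w = u
    · subst hwu
      rw [Equiv.swap_apply_left]
      exact hπ v hv hwv.symm
    · rw [Equiv.swap_apply_of_ne_of_ne hwu hwv]
      exact hπ w hw hwu
  · intro π _ π' _ h
    simp only at h
    ext x
    have := congrArg (fun e : U ≃ Fin (Fintype.card U) => e (Equiv.swap u v x)) h
    simpa using congrArg Fin.val this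

lemma minAt_card_eq (W : Finset U) (u v : U) (hu : u ∈ W) (hv : v ∈ W) :
    (minAt W u).card = (minAt W v).card :=
  le_antisymm (minAt_card_le W u v hu hv) (minAt_card_le W v u hv hu)

lemma card_univ_le (W : Finset U) (hW : W.Nonempty) (u : U) (hu : u ∈ W) :
    (univ : Finset (U ≃ Fin (Fintype.card U))).card ≤ W.card * (minAt W u).card := by
  have h1 : (univ : Finset (U ≃ Fin (Fintype.card U))) ⊆ W.biUnion (fun w => minAt W w) := by
    intro π _
    obtain ⟨m, hm, hmin⟩ := exists_min_image W (fun w => π w) hW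
    rw [mem_biUnion]
    refine ⟨m, hm, ?_⟩
    simp only [minAt, mem_filter, mem_univ, true_and]
    intro w hw hne
    refine lt_of_le_of_ne (hmin w hw) ?_
    intro h
    exact hne (π.injective h.symm)
  refine (card_le_card h1).trans (card_biUnion_le.trans ?_)
  calc _ = ∑ w ∈ W, (minAt W u).card := sum_congr rfl fun w hw => minAt_card_eq W w u hw hu
    _ ≤ _ := by rw [sum_const, smul_eq_mul]

/-- some element of `C` precedes all of `D`. -/
def Before (π : U ≃ Fin (Fintype.card U)) (C D : Finset U) : Prop := ∃ c ∈ C, ∀ d ∈ D, π c < π d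

instance (π : U ≃ Fin (Fintype.card U)) (C D : Finset U) : Decidable (Before π C D) := by
  unfold Before; infer_instance

lemma before_card (C D : Finset U) (hCD : Disjoint C D) (hC : C.Nonempty) :
    (C.card : ℝ) / (C.card + D.card) * (univ : Finset (U ≃ Fin (Fintype.card U))).card ≤
      ((univ.filter (fun π : U ≃ Fin (Fintype.card U) => Before π C D)).card : ℝ) := by
  obtain ⟨u, hu⟩ := hC
  have h1 := card_univ_le (C ∪ D) ⟨u, mem_union_left _ hu⟩ u (mem_union_left _ hu)
  have h2 : C.biUnion (fun c => minAt (C ∪ D) c) ⊆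
      univ.filter (fun π : U ≃ Fin (Fintype.card U) => Before π C D) := by
    intro π hπ
    rw [mem_biUnion] at hπ
    obtain ⟨c, hc, hπ⟩ := hπ
    simp only [minAt, mem_filter, mem_univ, true_and] at hπ ⊢
    refine ⟨c, hc, fun d hd => hπ d (mem_union_right _ hd) ?_⟩
    rintro rfl
    exact (disjoint_left.1 hCD hc) hd
  have h3 : (C.biUnion (fun c => minAt (C ∪ D) c)).card = C.card * (minAt (C ∪ D) u).card := by
    rw [card_biUnion]
    · calc _ = ∑ c ∈ C, (minAt (C ∪ D) u).card :=
          sum_congr rfl fun c hc => minAt_card_eq _ c u (mem_union_left _ hc) (mem_union_left _ hu)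
        _ = _ := by rw [sum_const, smul_eq_mul]
    · intro a ha b hb hab
      rw [Function.onFun, disjoint_left]
      intro π h4 h5
      simp only [minAt, mem_filter, mem_univ, true_and] at h4 h5
      have h6 := h4 b (mem_union_left _ hb) hab.symm
      have h7 := h5 a (mem_union_left _ ha) hab
      exact lt_asymm h6 h7
  have h4 := card_le_card h2
  rw [h3] at h4
  rw [card_union_of_disjoint hCD] at h1
  have hpos : (0 : ℝ) < C.card + D.card := by
    have : 0 < C.card := card_pos.2 ⟨u, hu⟩
    positivity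
  rw [div_mul_eq_mul_div, div_le_iff₀ hpos]
  have h1' : ((univ : Finset (U ≃ Fin (Fintype.card U))).card : ℝ) ≤
      ((C.card : ℝ) + D.card) * (minAt (C ∪ D) u).card := by exact_mod_cast h1
  have h4' : (C.card : ℝ) * (minAt (C ∪ D) u).card ≤
      ((univ.filter (fun π : U ≃ Fin (Fintype.card U) => Before π C D)).card : ℝ) := by
    exact_mod_cast h4
  calc (C.card : ℝ) * ((univ : Finset (U ≃ Fin (Fintype.card U))).card : ℝ)
      ≤ C.card * (((C.card : ℝ) + D.card) * (minAt (C ∪ D) u).card) := by gcongr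
    _ = ((C.card : ℝ) * (minAt (C ∪ D) u).card) * ((C.card : ℝ) + D.card) := by ring
    _ ≤ _ := by gcongr

variable {X : Type} [DecidableEq X]

/-- **Generalised Caro–Wei bound.** If every vertex `z` of `A` carries disjoint sets `C z`, `D z`
with `C z ⊆ D x` for adjacent `z, x`, then `A` contains an independent set of size at least
`∑ |C z| / (|C z| + |D z|)`. -/
theorem exists_indep (H : SimpleGraph X) (A : Finset X) (C D : X → Finset U)
    (hCD : ∀ z ∈ A, Disjoint (C z) (D z)) (hC : ∀ z ∈ A, (C z).Nonempty)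
    (hadj : ∀ z ∈ A, ∀ x ∈ A, H.Adj z x → C z ⊆ D x) :
    ∃ I : Finset X, I ⊆ A ∧ H.IsIndepSet (I : Set X) ∧
      ∑ z ∈ A, ((C z).card : ℝ) / ((C z).card + (D z).card) ≤ I.card := by
  by_contra hcon
  push Not at hcon
  set Om := (univ : Finset (U ≃ Fin (Fintype.card U))) with hOm
  have hne : Om.Nonempty := ⟨Fintype.equivFin U, mem_univ _⟩
  have hI : ∀ π ∈ Om, (((A.filter (fun z => Before π (C z) (D z))).card : ℕ) : ℝ) <
      ∑ z ∈ A, ((C z).card : ℝ) / ((C z).card + (D z).card) := by
    intro π _
    apply hcon _ (filter_subset _ _)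
    intro z hz x hx hzx hzx'
    simp only [coe_filter, Set.mem_setOf_eq] at hz hx
    obtain ⟨hzA, c, hc, hc'⟩ := hz
    obtain ⟨hxA, d, hd, hd'⟩ := hx
    have h1 := hc' d (hadj x hxA z hzA hzx'.symm hd)
    have h2 := hd' c (hadj z hzA x hxA hzx' hc)
    exact lt_asymm h1 h2
  have h1 := sum_lt_sum_of_nonempty hne hI
  rw [sum_const, nsmul_eq_mul] at h1
  have h2 : ∑ π ∈ Om, (((A.filter (fun z => Before π (C z) (D z))).card : ℕ) : ℝ) =
      ∑ z ∈ A, ((Om.filter (fun π => Before π (C z) (D z))).card : ℝ) := by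
    simp_rw [card_filter]
    push_cast
    exact sum_comm
  rw [h2] at h1
  have h3 : ∑ z ∈ A, ((C z).card : ℝ) / ((C z).card + (D z).card) * Om.card ≤
      ∑ z ∈ A, ((Om.filter (fun π => Before π (C z) (D z))).card : ℝ) :=
    sum_le_sum fun z hz => before_card (C z) (D z) (hCD z hz) (hC z hz)
  rw [← sum_mul] at h3
  linarith

end

end Pool.Agent.Helper67.Mixed
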