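import Pool.Agent.Helper67.Mixed.Order

set_option autoImplicit false

namespace Pool.Agent.Helper67.Mixed

open Finset

/-- irredundant sets of `G`: every member has a private neighbour. -/
def Irr {V : Type} (G : SimpleGraph V) (S : Finset V) : Prop :=
  ∀ v ∈ S, ∃ w, (w = v ∨ G.Adj v w) ∧ ∀ u ∈ S, u ≠ v → ¬ (w = u ∨ G.Adj u w)

section
variable {V : Type} [Fintype V] [DecidableEq V] (G : SimpleGraph V)

/-- co-neighbours -/
noncomputable def nb (v : V) : Finset V := by
  classical
  exact univ.filter (fun w => Gᶜ.Adj v w)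

lemma mem_nb (v w : V) : w ∈ nb G v ↔ Gᶜ.Adj v w := by
  unfold nb; simp

lemma indep_lt (n : ℕ) (hn : ∀ s : Finset V, ¬ G.IsNClique n s) (I : Finset V)
    (hI : Gᶜ.IsIndepSet (I : Set V)) : I.card < n := by
  by_contra hcon
  push Not at hcon
  obtain ⟨J, hJ, hJc⟩ := exists_subset_card_eq hcon
  refine hn J ⟨?_, hJc⟩
  intro a ha b hb hab
  have this : ¬ Gᶜ.Adj a b := hI (by exact_mod_cast hJ ha) (by exact_mod_cast hJ hb) hab
  rw [SimpleGraph.compl_adj] at this
  by_contra h
  exact this ⟨hab, h⟩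

lemma no_triangle (h3 : ∀ S : Finset V, S.card = 3 → ¬ Irr G S) (a b c : V) (hab : Gᶜ.Adj a b)
    (hac : Gᶜ.Adj a c) (hbc : Gᶜ.Adj b c) : False := by
  refine h3 {a, b, c} ?_ ?_
  · rw [card_eq_three]
    exact ⟨a, b, c, hab.ne, hac.ne, hbc.ne, rfl⟩
  · have key : ∀ x y : V, Gᶜ.Adj x y → ¬ (y = x ∨ G.Adj x y) := by
      intro x y hxy
      rw [SimpleGraph.compl_adj] at hxy
      rintro (h | h)
      · exact hxy.1 h.symm
      · exact hxy.2 h
    intro v hv
    refine ⟨v, Or.inl rfl, ?_⟩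
    intro u hu huv
    apply key
    simp only [mem_insert, mem_singleton] at hv hu
    rcases hv with rfl | rfl | rfl <;> rcases hu with rfl | rfl | rfl <;>
      first
        | exact absurd rfl huv
        | assumption
        | (apply SimpleGraph.Adj.symm; assumption)

/-- the chain property -/
lemma chain (h3 : ∀ S : Finset V, S.card = 3 → ¬ Irr G S) (v z x y : V) (hvz : v ≠ z)
    (hvz' : ¬ Gᶜ.Adj v z) (hx : Gᶜ.Adj z x) (hy : Gᶜ.Adj z y) :
    nb G v ∩ nb G x ⊆ nb G v ∩ nb G y ∨ nb G v ∩ nb G y ⊆ nb G v ∩ nb G x := by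
  by_contra hcon
  push Not at hcon
  obtain ⟨h1, h2⟩ := hcon
  rw [not_subset] at h1 h2
  obtain ⟨a, ha1, ha2⟩ := h1
  obtain ⟨b, hb1, hb2⟩ := h2
  simp only [mem_inter, mem_nb, not_and] at ha1 ha2 hb1 hb2
  have hay := ha2 ha1.1
  have hbx := hb2 hb1.1
  have hvx : v ≠ x := by rintro rfl; exact hvz' hx.symm
  have hvy : v ≠ y := by rintro rfl; exact hvz' hy.symm
  have hxy : x ≠ y := by rintro rfl; exact hay ha1.2
  have hbx' : b ≠ x := by
    rintro rfl
    exact no_triangle G h3 v a b ha1.1 hb1.1 ha1.2.symm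
  have hay' : a ≠ y := by
    rintro rfl
    exact no_triangle G h3 v b a hb1.1 ha1.1 hb1.2.symm
  have key : ∀ x y : V, Gᶜ.Adj x y → ¬ (y = x ∨ G.Adj x y) := by
    intro x y hxy
    rw [SimpleGraph.compl_adj] at hxy
    rintro (h | h)
    · exact hxy.1 h.symm
    · exact hxy.2 h
  have key2 : ∀ x y : V, x ≠ y → ¬ Gᶜ.Adj x y → G.Adj x y := by
    intro x y hxy h
    rw [SimpleGraph.compl_adj] at h
    by_contra h'
    exact h ⟨hxy, h'⟩
  refine h3 {v, x, y} (by rw [card_eq_three]; exact ⟨v, x, y, hvx, hvy, hxy, rfl⟩) ?_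
  intro u hu
  simp only [mem_insert, mem_singleton] at hu
  rcases hu with rfl | rfl | rfl
  · refine ⟨z, Or.inr (key2 _ _ hvz hvz'), ?_⟩
    intro w hw hwu
    simp only [mem_insert, mem_singleton] at hw
    rcases hw with rfl | rfl | rfl
    · exact absurd rfl hwu
    · exact key _ _ hx.symm
    · exact key _ _ hy.symm
  · refine ⟨b, Or.inr (key2 _ _ hbx'.symm hbx), ?_⟩
    intro w hw hwu
    simp only [mem_insert, mem_singleton] at hw
    rcases hw with rfl | rfl | rfl
    · exact key _ _ hb1.1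
    · exact absurd rfl hwu
    · exact key _ _ hb1.2
  · refine ⟨a, Or.inr (key2 _ _ hay'.symm hay), ?_⟩
    intro w hw hwu
    simp only [mem_insert, mem_singleton] at hw
    rcases hw with rfl | rfl | rfl
    · exact key _ _ ha1.1
    · exact key _ _ ha1.2
    · exact absurd rfl hwu

/-- a dyadic class of the second co-neighbourhood. -/
noncomputable def cls (v : V) (i : ℕ) : Finset V := by
  classical
  exact univ.filter (fun z => z ≠ v ∧ 2 ^ i ≤ (nb G v ∩ nb G z).card ∧
    (nb G v ∩ nb G z).card < 2 ^ (i + 1))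

lemma mem_cls (v z : V) (i : ℕ) : z ∈ cls G v i ↔ z ≠ v ∧ 2 ^ i ≤ (nb G v ∩ nb G z).card ∧
    (nb G v ∩ nb G z).card < 2 ^ (i + 1) := by
  unfold cls; simp

lemma cls_card (n : ℕ) (h3 : ∀ S : Finset V, S.card = 3 → ¬ Irr G S)
    (hn : ∀ s : Finset V, ¬ G.IsNClique n s) (v : V) (i : ℕ) : (cls G v i).card ≤ 3 * n := by
  classical
  set A := cls G v i with hA
  have hdisj : ∀ z x : V, Gᶜ.Adj z x → Disjoint (nb G v ∩ nb G x) (nb G v ∩ nb G z) := by
    intro z x hzx
    rw [disjoint_left]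
    intro a ha hb
    simp only [mem_inter, mem_nb] at ha hb
    exact no_triangle G h3 a x z ha.2.symm hb.2.symm hzx.symm
  have hnonadj : ∀ z ∈ A, ¬ Gᶜ.Adj v z := by
    intro z hz hvz
    rw [hA, mem_cls] at hz
    have h1 : 0 < (nb G v ∩ nb G z).card := lt_of_lt_of_le (by positivity) hz.2.1
    obtain ⟨a, ha⟩ := card_pos.1 h1
    simp only [mem_inter, mem_nb] at ha
    exact no_triangle G h3 v z a hvz ha.1 ha.2
  -- minimal neighbour
  have hx0 : ∀ z ∈ A, (∃ x ∈ A, Gᶜ.Adj z x) → ∃ x ∈ A, Gᶜ.Adj z x ∧ ∀ y ∈ A, Gᶜ.Adj z y →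
      nb G v ∩ nb G x ⊆ nb G v ∩ nb G y := by
    intro z hz ⟨x, hx, hzx⟩
    obtain ⟨m, hm, hmin⟩ := exists_min_image (A.filter (fun y => Gᶜ.Adj z y))
      (fun y => (nb G v ∩ nb G y).card) ⟨x, mem_filter.2 ⟨hx, hzx⟩⟩
    rw [mem_filter] at hm
    refine ⟨m, hm.1, hm.2, ?_⟩
    intro y hy hzy
    have h1 := hmin y (mem_filter.2 ⟨hy, hzy⟩)
    have hzv : z ≠ v := by rw [hA, mem_cls] at hz; exact hz.1
    rcases chain G h3 v z m y hzv.symm (hnonadj z hz) hm.2 hzy with h2 | h2
    · exact h2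
    · exact (eq_of_subset_of_card_le h2 h1).symm ▸ Subset.refl _
  choose! x0 hx0A hx0adj hx0min using hx0
  set C : V → Finset V := fun z => if (∃ x ∈ A, Gᶜ.Adj z x) then nb G v ∩ nb G (x0 z) else
    nb G v ∩ nb G z with hCdef
  set D : V → Finset V := fun z => if (∃ x ∈ A, Gᶜ.Adj z x) then nb G v ∩ nb G z else ∅ with hDdef
  have hCD : ∀ z ∈ A, Disjoint (C z) (D z) := by
    intro z hz
    by_cases hex : ∃ x ∈ A, Gᶜ.Adj z x
    · simp only [hCdef, hDdef, if_pos hex]
      exact hdisj z (x0 z) (hx0adj z hz hex)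
    · simp only [hCdef, hDdef, if_neg hex]
      exact disjoint_empty_right _
  have hC : ∀ z ∈ A, (C z).Nonempty := by
    intro z hz
    have hpos : 0 < 2 ^ i := by positivity
    by_cases hex : ∃ x ∈ A, Gᶜ.Adj z x
    · simp only [hCdef, if_pos hex]
      have hx0' := (mem_cls G v (x0 z) i).1 (hx0A z hz hex)
      exact card_pos.1 (lt_of_lt_of_le hpos hx0'.2.1)
    · simp only [hCdef, if_neg hex]
      exact card_pos.1 (lt_of_lt_of_le hpos ((mem_cls G v z i).1 hz).2.1)
  have hadj : ∀ z ∈ A, ∀ x ∈ A, Gᶜ.Adj z x → C z ⊆ D x := by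
    intro z hz x hx hzx
    have hex : ∃ y ∈ A, Gᶜ.Adj z y := ⟨x, hx, hzx⟩
    have hex' : ∃ y ∈ A, Gᶜ.Adj x y := ⟨z, hz, hzx.symm⟩
    simp only [hCdef, hDdef, if_pos hex, if_pos hex']
    exact hx0min z hz hex x hx hzx
  obtain ⟨I, hIA, hI, hsum⟩ := exists_indep Gᶜ A C D hCD hC hadj
  have hlt := indep_lt G n hn I hI
  have hterm : ∀ z ∈ A, (1 / 3 : ℝ) ≤ ((C z).card : ℝ) / (((C z).card : ℝ) + ((D z).card : ℝ)) := by
    intro z hz
    have hz' := (mem_cls G v z i).1 hz
    have hpos : 0 < 2 ^ i := by positivity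
    by_cases hex : ∃ x ∈ A, Gᶜ.Adj z x
    · simp only [hCdef, hDdef, if_pos hex]
      have hx0' := (mem_cls G v (x0 z) i).1 (hx0A z hz hex)
      have h1 : (nb G v ∩ nb G z).card < 2 * (nb G v ∩ nb G (x0 z)).card := by
        have := hz'.2.2
        rw [pow_succ] at this
        have := hx0'.2.1
        omega
      have h1' : ((nb G v ∩ nb G z).card : ℝ) < 2 * (nb G v ∩ nb G (x0 z)).card := by
        exact_mod_cast h1
      have h2 : (0 : ℝ) < (nb G v ∩ nb G (x0 z)).card := by
        have : 0 < (nb G v ∩ nb G (x0 z)).card := lt_of_lt_of_le hpos hx0'.2.1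
        exact_mod_cast this
      have h3 : (0 : ℝ) ≤ (nb G v ∩ nb G z).card := Nat.cast_nonneg _
      rw [le_div_iff₀ (by linarith)]
      linarith
    · simp only [hCdef, hDdef, if_neg hex]
      have h2 : (0 : ℝ) < (nb G v ∩ nb G z).card := by
        have : 0 < (nb G v ∩ nb G z).card := lt_of_lt_of_le hpos hz'.2.1
        exact_mod_cast this
      rw [card_empty, Nat.cast_zero, add_zero, div_self h2.ne']
      norm_num
  have h4 := sum_le_sum hterm
  rw [sum_const, nsmul_eq_mul] at h4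
  have h5 : (I.card : ℝ) ≤ n := by exact_mod_cast hlt.le
  have h6 : (A.card : ℝ) ≤ 3 * n := by
    have := h4.trans (hsum.trans h5)
    linarith
  exact_mod_cast h6

/-- second co-neighbourhood -/
noncomputable def nb2 (v : V) : Finset V := by
  classical
  exact univ.filter (fun z => z ≠ v ∧ (nb G v ∩ nb G z).Nonempty)

lemma mem_nb2 (v z : V) : z ∈ nb2 G v ↔ z ≠ v ∧ (nb G v ∩ nb G z).Nonempty := by
  unfold nb2; simp

lemma nb_indep (h3 : ∀ S : Finset V, S.card = 3 → ¬ Irr G S) (v : V) :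
    Gᶜ.IsIndepSet (nb G v : Set V) := by
  intro a ha b hb _ hab
  rw [mem_coe, mem_nb] at ha hb
  exact no_triangle G h3 v a b ha hb hab

lemma nb2_card (n : ℕ) (h3 : ∀ S : Finset V, S.card = 3 → ¬ Irr G S)
    (hn : ∀ s : Finset V, ¬ G.IsNClique n s) (v : V) :
    (nb2 G v).card ≤ (Nat.log 2 n + 1) * (3 * n) := by
  classical
  have h1 : nb2 G v ⊆ (range (Nat.log 2 n + 1)).biUnion (fun i => cls G v i) := by
    intro z hz
    rw [mem_nb2] at hz
    rw [mem_biUnion]
    have h2 : 0 < (nb G v ∩ nb G z).card := card_pos.2 hz.2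
    have h4 : (nb G v ∩ nb G z).card ≤ n := by
      refine (card_le_card inter_subset_left).trans ?_
      exact (indep_lt G n hn _ (nb_indep G h3 v)).le
    refine ⟨Nat.log 2 (nb G v ∩ nb G z).card, ?_, ?_⟩
    · rw [mem_range]
      exact Nat.lt_succ_of_le (Nat.log_mono_right h4)
    · rw [mem_cls]
      exact ⟨hz.1, Nat.pow_log_le_self 2 h2.ne', Nat.lt_pow_succ_log_self (by norm_num) _⟩
  refine (card_le_card h1).trans (card_biUnion_le.trans ?_)
  calc _ ≤ ∑ i ∈ range (Nat.log 2 n + 1), 3 * n := sum_le_sum fun i _ => cls_card G n h3 hn v i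
    _ = _ := by rw [sum_const, card_range, smul_eq_mul]

/-- the Caro–Wei bound. -/
lemma caro_wei (n : ℕ) (hn : ∀ s : Finset V, ¬ G.IsNClique n s) :
    ∑ v : V, (1 : ℝ) / (1 + (nb G v).card) ≤ n := by
  obtain ⟨I, _, hI, hsum⟩ := exists_indep Gᶜ (univ : Finset V) (fun v => {v}) (fun v => nb G v)
    (fun v _ => by rw [disjoint_singleton_left, mem_nb]; exact fun h => h.ne rfl)
    (fun v _ => singleton_nonempty v)
    (fun z _ x _ hzx => by rw [singleton_subset_iff, mem_nb]; exact hzx.symm)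
  have hlt := indep_lt G n hn I hI
  simp only [card_singleton, Nat.cast_one] at hsum
  exact hsum.trans (by exact_mod_cast hlt.le)

/-- upper bound for `t(3, n)`. -/
theorem card_sq_le (n : ℕ) (hn0 : 1 ≤ n) (h3 : ∀ S : Finset V, S.card = 3 → ¬ Irr G S)
    (hn : ∀ s : Finset V, ¬ G.IsNClique n s) :
    Fintype.card V ^ 2 ≤ 10 * n ^ 3 * (Nat.log 2 n + 1) := by
  classical
  set Lg := Nat.log 2 n + 1 with hLg
  set A := (univ : Finset V).filter (fun a => (nb G a).Nonempty) with hA
  obtain ⟨I, _, hI, hsum⟩ := exists_indep Gᶜ A (fun a => nb G a) (fun a => insert a (nb2 G a))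
    (fun a _ => by
      rw [disjoint_left]
      intro c hc hc'
      rw [mem_nb] at hc
      rw [mem_insert, mem_nb2] at hc'
      rcases hc' with rfl | ⟨_, b, hb⟩
      · exact hc.ne rfl
      · simp only [mem_inter, mem_nb] at hb
        exact no_triangle G h3 a c b hc hb.1 hb.2)
    (fun a ha => (mem_filter.1 ha).2)
    (fun z _ x _ hzx => by
      intro c hc
      rw [mem_nb] at hc
      rw [mem_insert, mem_nb2]
      by_cases hcx : c = x
      · exact Or.inl hcx
      · right
        refine ⟨hcx, z, ?_⟩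
        simp only [mem_inter, mem_nb]
        exact ⟨hzx.symm, hc.symm⟩)
  have hlt := indep_lt G n hn I hI
  have hIn : (I.card : ℝ) ≤ n := by exact_mod_cast hlt.le
  have hd : ∀ a, ((nb G a).card : ℝ) ≤ n := by
    intro a
    exact_mod_cast (indep_lt G n hn _ (nb_indep G h3 a)).le
  have hD : ∀ a, ((insert a (nb2 G a) : Finset V).card : ℝ) ≤ 3 * n * Lg + 1 := by
    intro a
    have h1 := card_insert_le a (nb2 G a)
    have h2 := nb2_card G n h3 hn a
    have h4 : (insert a (nb2 G a) : Finset V).card ≤ 3 * n * Lg + 1 := by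
      calc _ ≤ (nb2 G a).card + 1 := h1
        _ ≤ Lg * (3 * n) + 1 := Nat.add_le_add_right h2 1
        _ = _ := by ring
    exact_mod_cast h4
  have hn1 : (1 : ℝ) ≤ n := by exact_mod_cast hn0
  have hLg1 : (1 : ℝ) ≤ Lg := by
    have : 1 ≤ Lg := by omega
    exact_mod_cast this
  set M : ℝ := 5 * n * Lg with hM
  have hnL : (n : ℝ) ≤ n * Lg := by nlinarith
  have hM0 : 0 < M := by positivity
  have hbound : ∀ a, ((nb G a).card : ℝ) + ((insert a (nb2 G a) : Finset V).card : ℝ) ≤ M := by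
    intro a
    have := hd a
    have := hD a
    rw [hM]
    nlinarith
  have hdeg : ∑ a : V, ((nb G a).card : ℝ) ≤ n * M := by
    have h1 : ∑ a : V, ((nb G a).card : ℝ) = ∑ a ∈ A, ((nb G a).card : ℝ) := by
      symm
      apply sum_subset (subset_univ _)
      intro a _ ha
      have : nb G a = ∅ := by
        rw [← not_nonempty_iff_eq_empty]
        intro h
        exact ha (mem_filter.2 ⟨mem_univ _, h⟩)
      rw [this]; simp
    rw [h1]
    have h2 : ∑ a ∈ A, ((nb G a).card : ℝ) / M ≤ n := by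
      refine le_trans ?_ (hsum.trans hIn)
      refine sum_le_sum fun a ha => ?_
      have hpos : (0 : ℝ) < (nb G a).card := by
        have := card_pos.2 (mem_filter.1 ha).2
        exact_mod_cast this
      apply div_le_div_of_nonneg_left hpos.le
      · positivity
      · exact hbound a
    rw [← sum_div, div_le_iff₀ hM0] at h2
    exact h2
  have hcw := caro_wei G n hn
  have hcs := sum_sq_le_sum_mul_sum_of_sq_eq_mul (univ : Finset V) (r := fun _ => (1 : ℝ))
    (f := fun v => 1 + ((nb G v).card : ℝ)) (g := fun v => (1 : ℝ) / (1 + (nb G v).card))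
    (fun v _ => by positivity) (fun v _ => by positivity)
    (fun v _ => by field_simp)
  rw [sum_const, sum_add_distrib, sum_const, card_univ, nsmul_eq_mul] at hcs
  simp only [mul_one] at hcs
  set N := Fintype.card V with hN
  have h7 : (N : ℝ) ^ 2 ≤ (N + n * M) * n := by
    refine hcs.trans ?_
    have h8 : (0 : ℝ) ≤ ∑ v : V, (1 : ℝ) / (1 + (nb G v).card) := sum_nonneg fun v _ => by positivity
    have h9 : (0 : ℝ) ≤ N + n * M := by positivity
    calc _ ≤ (N + n * M) * ∑ v : V, (1 : ℝ) / (1 + (nb G v).card) := by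
          apply mul_le_mul_of_nonneg_right _ h8
          linarith
      _ ≤ _ := mul_le_mul_of_nonneg_left hcw h9
  have h10 : (N : ℝ) ^ 2 ≤ 2 * n ^ 2 * M := by
    by_cases h : (N : ℝ) ≤ 2 * n
    · have h11 : (N : ℝ) ^ 2 ≤ (2 * n) ^ 2 := by gcongr
      have h12 : 5 ≤ M := by rw [hM]; nlinarith
      have h13 : (0 : ℝ) ≤ n ^ 2 := by positivity
      nlinarith
    · push Not at h
      have : (n : ℝ) * N ≤ N ^ 2 / 2 := by nlinarith
      nlinarith
  have h14 : (N : ℝ) ^ 2 ≤ 10 * n ^ 3 * Lg := by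
    rw [hM] at h10
    calc (N : ℝ) ^ 2 ≤ 2 * n ^ 2 * (5 * n * Lg) := h10
      _ = _ := by ring
  exact_mod_cast h14

/-- upper bound for `t(4, n)` from a bound `B` for `t(3, n)`. -/
theorem card_le_four (n B : ℕ) (h4 : ∀ S : Finset V, S.card = 4 → ¬ Irr G S)
    (hn : ∀ s : Finset V, ¬ G.IsNClique n s)
    (hB : ∀ (W : Type) [Fintype W] [DecidableEq W] (G' : SimpleGraph W),
      (∀ S : Finset W, S.card = 3 → ¬ Irr G' S) → (∀ s : Finset W, ¬ G'.IsNClique n s) →
      Fintype.card W ≤ B) : Fintype.card V ≤ n * (1 + B) := by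
  classical
  have hdeg : ∀ v, (nb G v).card ≤ B := by
    intro v
    have h1 := hB (nb G v) (G.comap (Subtype.val)) ?_ ?_
    · simpa using h1
    · intro S hS hirr
      set emb : (nb G v) ↪ V := Function.Embedding.subtype _ with hemb
      have hv : v ∉ S.map emb := by
        intro h
        rw [mem_map] at h
        obtain ⟨⟨x, hx⟩, _, hxv⟩ := h
        have hxv' : x = v := hxv
        rw [mem_nb, hxv'] at hx
        exact hx.ne rfl
      refine h4 (insert v (S.map emb)) ?_ ?_
      · rw [card_insert_of_notMem hv, card_map, hS]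
      · have key : ∀ x y : V, Gᶜ.Adj x y → ¬ (y = x ∨ G.Adj x y) := by
          intro x y hxy
          rw [SimpleGraph.compl_adj] at hxy
          rintro (h | h)
          · exact hxy.1 h.symm
          · exact hxy.2 h
        intro u hu
        rw [mem_insert] at hu
        rcases hu with rfl | hu
        · refine ⟨u, Or.inl rfl, ?_⟩
          intro x hx hxu
          rw [mem_insert] at hx
          rcases hx with rfl | hx
          · exact absurd rfl hxu
          · rw [mem_map] at hx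
            obtain ⟨⟨y, hy⟩, _, rfl⟩ := hx
            rw [mem_nb] at hy
            exact key _ _ hy.symm
        · rw [mem_map] at hu
          obtain ⟨y, hyS, rfl⟩ := hu
          obtain ⟨w, hw1, hw2⟩ := hirr y hyS
          refine ⟨w.1, ?_, ?_⟩
          · rcases hw1 with h | h
            · left; rw [h]; rfl
            · right; exact h
          · intro x hx hxu
            rw [mem_insert] at hx
            rcases hx with rfl | hx
            · have := (mem_nb G _ _).1 w.2
              exact key _ _ this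
            · rw [mem_map] at hx
              obtain ⟨x', hx'S, rfl⟩ := hx
              have h5 := hw2 x' hx'S (by rintro rfl; exact hxu rfl)
              rintro (h6 | h6)
              · exact h5 (Or.inl (Subtype.ext h6))
              · exact h5 (Or.inr h6)
    · intro s hs
      refine hn (s.map (Function.Embedding.subtype _)) ?_
      refine ⟨?_, by rw [card_map]; exact hs.2⟩
      intro a ha b hb hab
      simp only [coe_map, Set.mem_image, mem_coe] at ha hb
      obtain ⟨x, hx, rfl⟩ := ha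
      obtain ⟨y, hy, rfl⟩ := hb
      exact hs.1 hx hy (fun h => hab (by rw [h]))
  have hcw := caro_wei G n hn
  have h1 : (Fintype.card V : ℝ) * (1 / (1 + B)) ≤ n := by
    refine le_trans ?_ hcw
    rw [← card_univ, ← nsmul_eq_mul, ← sum_const]
    refine sum_le_sum fun v _ => ?_
    have : ((nb G v).card : ℝ) ≤ B := by exact_mod_cast hdeg v
    apply one_div_le_one_div_of_le (by positivity)
    linarith
  rw [mul_one_div, div_le_iff₀ (by positivity)] at h1
  exact_mod_cast h1

end

end Pool.Agent.Helper67.Mixed
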